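import Mathlib
import Pool.Agent.H75.IterInt
import Pool.Agent.H75.Reparam

/-!
# The entropy function of the word list `10, 01, 110` is not differentiable

Since `ρ₁₀ + ρ₀₁ = 2 ρ₁ (1 - ρ₁)`, prescribing the densities of `10` and `01` leaves two possible
values `p, 1 - p` for the density of ones. On the segment `ρ₁₀ = ρ₀₁ = p (1 - p)`,
`(1 - p)² p ≤ ρ₁₁₀ ≤ p² (1 - p)` the entropy function is the maximum of two functions, each of
which is star-concave with respect to one end of the segment; it takes the value `S(p)` at both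
ends and smaller values inside, so it has a convex kink at an interior minimum.
-/

open MeasureTheory Set

namespace Pool.Agent.Results.MP_8f0a23_co.NotDifferentiable

/-- `f` is the density of a sublebesgue measure on `[0,1]`. -/
def IsDensity (f : ℝ → ℝ) : Prop :=
  Measurable f ∧ ∀ x ∈ Icc (0:ℝ) 1, f x ∈ Icc (0:ℝ) 1

/-- The factor attached to a letter: `f` for the letter `1` (`true`), `1 - f` for the letter `0`
(`false`). -/
def letter (f : ℝ → ℝ) (b : Bool) (x : ℝ) : ℝ := if b then f x else 1 - f x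

/-- The density `ρ_w(f dx)` of the binary word `w`. -/
noncomputable def rho (w : List Bool) (f : ℝ → ℝ) : ℝ :=
  (w.length.factorial : ℝ) *
    ∫ x in {x : Fin w.length → ℝ | StrictMono x ∧ ∀ i, x i ∈ Icc (0:ℝ) 1},
      ∏ i, letter f (w.get i) (x i)

/-- The entropy of `f dx`. -/
noncomputable def Ent (f : ℝ → ℝ) : ℝ := ∫ x in Icc (0:ℝ) 1, Real.binEntropy (f x)

/-- The feasibility set `E_W` of the list of words `W`. -/
def feasible {k : ℕ} (W : Fin k → List Bool) : Set (Fin k → ℝ) :=
  {δ | ∃ f, IsDensity f ∧ ∀ i, rho (W i) f = δ i}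

/-- The entropy function `s_W`. -/
noncomputable def entropyFn {k : ℕ} (W : Fin k → List Bool) (δ : Fin k → ℝ) : ℝ :=
  sSup {e | ∃ f, IsDensity f ∧ (∀ i, rho (W i) f = δ i) ∧ Ent f = e}

/-! ### Global densities -/

/-- Densities with values in `[0,1]` everywhere. -/
def Good (f : ℝ → ℝ) : Prop := Measurable f ∧ ∀ x, f x ∈ Icc (0:ℝ) 1

theorem Good.isDensity {f : ℝ → ℝ} (hf : Good f) : IsDensity f := ⟨hf.1, fun x _ => hf.2 x⟩

theorem IsDensity.exists_good {f : ℝ → ℝ} (hf : IsDensity f) :
    ∃ g, Good g ∧ (∀ w, rho w g = rho w f) ∧ Ent g = Ent f := by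
  refine ⟨(Icc (0:ℝ) 1).indicator f, ⟨hf.1.indicator measurableSet_Icc, ?_⟩, ?_, ?_⟩
  · intro x
    by_cases hx : x ∈ Icc (0:ℝ) 1
    · rw [indicator_of_mem hx]; exact hf.2 x hx
    · rw [indicator_of_notMem hx]; exact ⟨le_rfl, zero_le_one⟩
  · intro w
    unfold rho
    congr 1
    refine setIntegral_congr_fun ?_ ?_
    · have : {x : Fin w.length → ℝ | StrictMono x ∧ ∀ i, x i ∈ Icc (0:ℝ) 1} =
          {x : Fin w.length → ℝ | StrictMono x} ∩ (Set.pi univ fun _ => Icc (0:ℝ) 1) := by
        ext x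
        exact ⟨fun h => ⟨h.1, fun i _ => h.2 i⟩, fun h => ⟨h.1, fun i => h.2 i (mem_univ i)⟩⟩
      rw [this]
      exact (Pool.Agent.H75.measurableSet_strictMono _).inter
        (MeasurableSet.univ_pi fun _ => measurableSet_Icc)
    · intro x hx
      refine Finset.prod_congr rfl fun i _ => ?_
      unfold letter
      rw [indicator_of_mem (hx.2 i)]
  · unfold Ent
    refine setIntegral_congr_fun measurableSet_Icc ?_
    intro x hx
    simp only [indicator_of_mem hx]

/-- The primitive of `f`. -/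
noncomputable def prim (f : ℝ → ℝ) (s : ℝ) : ℝ := ∫ x in (0:ℝ)..s, f x

theorem Good.intervalIntegrable {f : ℝ → ℝ} (hf : Good f) (a b : ℝ) :
    IntervalIntegrable f volume a b := by
  rw [intervalIntegrable_iff]
  refine Measure.integrableOn_of_bounded (M := 1) ?_ hf.1.aestronglyMeasurable ?_
  · rw [uIoc, Real.volume_Ioc]; exact ENNReal.ofReal_ne_top
  · refine Filter.Eventually.of_forall fun x => ?_
    rw [Real.norm_eq_abs, abs_of_nonneg (hf.2 x).1]
    exact (hf.2 x).2

theorem Good.compl {f : ℝ → ℝ} (hf : Good f) : Good (fun x => 1 - f x) :=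
  ⟨measurable_const.sub hf.1, fun x => ⟨by linarith [(hf.2 x).2], by linarith [(hf.2 x).1]⟩⟩

theorem Good.letter {f : ℝ → ℝ} (hf : Good f) (b : Bool) : Good (letter f b) := by
  cases b
  · exact hf.compl
  · exact hf

theorem rho_eq_simplex {f : ℝ → ℝ} (w : List Bool) : rho w f = (w.length.factorial : ℝ) *
    ∫ x in Pool.Agent.H75.simplex w.length 1, ∏ i, letter f (w.get i) (x i) := by
  unfold rho
  congr 1
  apply setIntegral_congr_set
  have h1 : ∀ᵐ x : Fin w.length → ℝ, ∀ i, x i ≠ 1 := by
    rw [ae_all_iff]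
    intro i
    rw [ae_iff]
    simp only [ne_eq, not_not]
    exact Measure.pi_hyperplane (fun _ : Fin w.length => (volume : Measure ℝ)) i 1
  filter_upwards [h1] with x hx
  show ({x : Fin w.length → ℝ | StrictMono x ∧ ∀ i, x i ∈ Icc (0:ℝ) 1} x) = _
  apply propext
  constructor
  · rintro ⟨h2, h3⟩
    exact ⟨h2, fun i => ⟨(h3 i).1, lt_of_le_of_ne (h3 i).2 (hx i)⟩⟩
  · rintro ⟨h2, h3⟩
    exact ⟨h2, fun i => ⟨(h3 i).1, (h3 i).2.le⟩⟩

theorem simplex_zero (G : Fin 0 → ℝ → ℝ) (t : ℝ) :
    ∫ x in Pool.Agent.H75.simplex 0 t, ∏ i, G i (x i) = 1 := by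
  have : Pool.Agent.H75.simplex 0 t = univ := by
    rw [eq_univ_iff_forall]
    intro x
    exact ⟨fun i => i.elim0, fun i => i.elim0⟩
  rw [this]
  simp [measureReal_def, volume_pi]

theorem simplex_one {G : Fin 1 → ℝ → ℝ} (hG : ∀ i, Good (G i)) {t : ℝ} (ht : 0 ≤ t) :
    ∫ x in Pool.Agent.H75.simplex 1 t, ∏ i, G i (x i) = prim (G 0) t := by
  rw [Pool.Agent.H75.simplex_step G (fun i => (hG i).1) (fun i => (hG i).2) ht]
  unfold prim
  refine intervalIntegral.integral_congr fun y _ => ?_
  show _ * ∫ x in Pool.Agent.H75.simplex 0 y, _ = _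
  rw [simplex_zero (fun i => G i.castSucc), mul_one]
  rfl

theorem simplex_two {G : Fin 2 → ℝ → ℝ} (hG : ∀ i, Good (G i)) {t : ℝ} (ht : 0 ≤ t) :
    ∫ x in Pool.Agent.H75.simplex 2 t, ∏ i, G i (x i) =
      ∫ y in (0:ℝ)..t, G 1 y * prim (G 0) y := by
  rw [Pool.Agent.H75.simplex_step G (fun i => (hG i).1) (fun i => (hG i).2) ht]
  refine intervalIntegral.integral_congr fun y hy => ?_
  rw [uIcc_of_le ht] at hy
  show _ * ∫ x in Pool.Agent.H75.simplex 1 y, _ = _
  rw [simplex_one (G := fun i => G i.castSucc) (fun i => hG _) hy.1]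
  rfl

theorem simplex_three {G : Fin 3 → ℝ → ℝ} (hG : ∀ i, Good (G i)) {t : ℝ} (ht : 0 ≤ t) :
    ∫ x in Pool.Agent.H75.simplex 3 t, ∏ i, G i (x i) =
      ∫ y in (0:ℝ)..t, G 2 y * ∫ z in (0:ℝ)..y, G 1 z * prim (G 0) z := by
  rw [Pool.Agent.H75.simplex_step G (fun i => (hG i).1) (fun i => (hG i).2) ht]
  refine intervalIntegral.integral_congr fun y hy => ?_
  rw [uIcc_of_le ht] at hy
  show _ * ∫ x in Pool.Agent.H75.simplex 2 y, _ = _
  rw [simplex_two (G := fun i => G i.castSucc) (fun i => hG _) hy.1]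
  rfl

theorem rho_10 {f : ℝ → ℝ} (hf : Good f) :
    rho [true, false] f = 2 * ∫ y in (0:ℝ)..1, (1 - f y) * prim f y := by
  rw [rho_eq_simplex]
  have h := simplex_two (G := fun i => letter f ([true, false].get i))
    (fun i => hf.letter _) (t := 1) zero_le_one
  have h2 : (([true, false] : List Bool).length.factorial : ℝ) = 2 := by norm_num [Nat.factorial]
  rw [h2]
  congr 1

theorem rho_01 {f : ℝ → ℝ} (hf : Good f) :
    rho [false, true] f = 2 * ∫ y in (0:ℝ)..1, f y * prim (fun x => 1 - f x) y := by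
  rw [rho_eq_simplex]
  have h := simplex_two (G := fun i => letter f ([false, true].get i))
    (fun i => hf.letter _) (t := 1) zero_le_one
  have h2 : (([false, true] : List Bool).length.factorial : ℝ) = 2 := by norm_num [Nat.factorial]
  rw [h2]
  congr 1

theorem prim_sq {f : ℝ → ℝ} (hf : Good f) (t : ℝ) :
    ∫ z in (0:ℝ)..t, f z * prim f z = prim f t ^ 2 / 2 := by
  have h := Pool.Agent.H75.parts (hf.intervalIntegrable 0 t) (hf.intervalIntegrable 0 t)
  have h2 : ∫ x in (0:ℝ)..t, (f x * (∫ y in (0:ℝ)..x, f y) + (∫ y in (0:ℝ)..x, f y) * f x) =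
      ∫ x in (0:ℝ)..t, 2 * (f x * prim f x) := by
    refine intervalIntegral.integral_congr fun y _ => ?_
    simp only [prim]
    ring
  rw [h2, intervalIntegral.integral_const_mul] at h
  unfold prim at h ⊢
  linarith

theorem rho_110 {f : ℝ → ℝ} (hf : Good f) :
    rho [true, true, false] f = 3 * ∫ y in (0:ℝ)..1, (1 - f y) * prim f y ^ 2 := by
  rw [rho_eq_simplex]
  have h := simplex_three (G := fun i => letter f ([true, true, false].get i))
    (fun i => hf.letter _) (t := 1) zero_le_one
  have h2 : (([true, true, false] : List Bool).length.factorial : ℝ) = 6 := by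
    norm_num [Nat.factorial]
  rw [h2]
  have h3 : ∫ x in Pool.Agent.H75.simplex ([true, true, false] : List Bool).length 1,
      ∏ i, letter f (([true, true, false] : List Bool).get i) (x i) =
      ∫ y in (0:ℝ)..1, (1 - f y) * ∫ z in (0:ℝ)..y, f z * prim f z := h
  rw [h3]
  simp only [prim_sq hf]
  rw [← intervalIntegral.integral_const_mul, ← intervalIntegral.integral_const_mul]
  refine intervalIntegral.integral_congr fun y _ => ?_
  ring

theorem Ent_eq (f : ℝ → ℝ) : Ent f = ∫ x in (0:ℝ)..1, Real.binEntropy (f x) := by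
  unfold Ent
  rw [integral_Icc_eq_integral_Ioc, intervalIntegral.integral_of_le zero_le_one]

theorem bddInt {g : ℝ → ℝ} (hg : Measurable g) {C : ℝ} (h : ∀ x, |g x| ≤ C) (a b : ℝ) :
    IntervalIntegrable g volume a b := by
  rw [intervalIntegrable_iff]
  refine Measure.integrableOn_of_bounded (M := C) ?_ hg.aestronglyMeasurable ?_
  · rw [uIoc, Real.volume_Ioc]; exact ENNReal.ofReal_ne_top
  · exact Filter.Eventually.of_forall fun x => h x

theorem Good.prim_continuous {f : ℝ → ℝ} (hf : Good f) : Continuous (prim f) :=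
  intervalIntegral.continuous_primitive hf.intervalIntegrable 0

theorem Good.prim_mem {f : ℝ → ℝ} (hf : Good f) {s : ℝ} (hs : s ∈ Icc (0:ℝ) 1) :
    prim f s ∈ Icc (0:ℝ) 1 := by
  constructor
  · exact intervalIntegral.integral_nonneg hs.1 (fun x _ => (hf.2 x).1)
  · have h1 : prim f s ≤ ∫ x in (0:ℝ)..s, (1:ℝ) :=
      intervalIntegral.integral_mono_on hs.1 (hf.intervalIntegrable 0 s) (by simp)
        (fun x _ => (hf.2 x).2)
    have h2 : ∫ x in (0:ℝ)..s, (1:ℝ) = s := by simp
    rw [h2] at h1
    exact h1.trans hs.2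

theorem prim_compl {f : ℝ → ℝ} (hf : Good f) (s : ℝ) : prim (fun x => 1 - f x) s = s - prim f s := by
  unfold prim
  rw [intervalIntegral.integral_sub (by simp) (hf.intervalIntegrable 0 s)]
  simp

theorem rho_10_add_rho_01 {f : ℝ → ℝ} (hf : Good f) :
    rho [true, false] f + rho [false, true] f = 2 * (prim f 1 * (1 - prim f 1)) := by
  rw [rho_10 hf, rho_01 hf]
  have h := Pool.Agent.H75.parts (hf.intervalIntegrable 0 1) (hf.compl.intervalIntegrable 0 1)
  have h1 : (∫ y in (0:ℝ)..1, (1 - f y)) = 1 - prim f 1 := prim_compl hf 1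
  rw [h1] at h
  have h2 : (∫ y in (0:ℝ)..1, (1 - f y) * prim f y) +
      (∫ y in (0:ℝ)..1, f y * prim (fun x => 1 - f x) y) = prim f 1 * (1 - prim f 1) := by
    rw [← intervalIntegral.integral_add]
    · rw [← show (∫ y in (0:ℝ)..1, f y) = prim f 1 from rfl] at h ⊢
      rw [← h]
      refine intervalIntegral.integral_congr fun y _ => ?_
      simp only [prim]
      ring
    · exact hf.compl.intervalIntegrable 0 1 |>.mul_continuousOn hf.prim_continuous.continuousOn
    · exact hf.intervalIntegrable 0 1 |>.mul_continuousOn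
        hf.compl.prim_continuous.continuousOn
  linarith

theorem prim_cube {f : ℝ → ℝ} (hf : Good f) :
    ∫ z in (0:ℝ)..1, f z * prim f z ^ 2 = prim f 1 ^ 3 / 3 := by
  have hI : IntervalIntegrable (fun z => f z * prim f z) volume 0 1 :=
    (hf.intervalIntegrable 0 1).mul_continuousOn hf.prim_continuous.continuousOn
  have h := Pool.Agent.H75.parts (hf.intervalIntegrable 0 1) hI
  have h2 : ∫ x in (0:ℝ)..1, (f x * (∫ y in (0:ℝ)..x, f y * prim f y) +
      (∫ y in (0:ℝ)..x, f y) * (f x * prim f x)) =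
      ∫ x in (0:ℝ)..1, (3 / 2) * (f x * prim f x ^ 2) := by
    refine intervalIntegral.integral_congr fun y _ => ?_
    show f y * (∫ z in (0:ℝ)..y, f z * prim f z) + prim f y * (f y * prim f y) =
      (3 / 2) * (f y * prim f y ^ 2)
    rw [prim_sq hf]
    ring
  rw [h2, intervalIntegral.integral_const_mul, prim_sq hf] at h
  rw [← show (∫ y in (0:ℝ)..1, f y) = prim f 1 from rfl] at h ⊢
  linarith

/-- **Mixture with a constant density.** -/
theorem mixture {f : ℝ → ℝ} (hf : Good f) {p t : ℝ} (hp : prim f 1 = p) (hp0 : 0 < p)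
    (hp1 : p < 1) (ht0 : 0 ≤ t) (ht1 : t < 1) : ∃ g, Good g ∧ prim g 1 = p ∧
      rho [true, false] g = (1 - t) * rho [true, false] f + t * (p * (1 - p)) ∧
      rho [true, true, false] g = (1 - t) * rho [true, true, false] f + t * (p ^ 2 * (1 - p)) ∧
      (1 - t) * Ent f + t * Real.binEntropy p ≤ Ent g := by
  classical
  -- extend by `p` outside `[0,1]`
  let fb : ℝ → ℝ := fun x => if x ∈ Icc (0:ℝ) 1 then f x else p
  have hfbg : Good fb := by
    refine ⟨Measurable.ite measurableSet_Icc hf.1 measurable_const, fun x => ?_⟩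
    show (if x ∈ Icc (0:ℝ) 1 then f x else p) ∈ Icc (0:ℝ) 1
    split_ifs
    · exact hf.2 x
    · exact ⟨hp0.le, hp1.le⟩
  have hfb : ∀ x ∈ Icc (0:ℝ) 1, fb x = f x := fun x hx => if_pos hx
  let xd : ℝ → ℝ := fun s => (1 - t) + t * (fb s / p)
  have hxdm : Measurable xd := by
    have := hfbg.1
    fun_prop
  have hlow : ∀ s, 1 - t ≤ xd s := by
    intro s
    have : 0 ≤ t * (fb s / p) := mul_nonneg ht0 (div_nonneg (hfbg.2 s).1 hp0.le)
    show 1 - t ≤ (1 - t) + t * (fb s / p)
    linarith
  have hxpos : ∀ s, 0 < xd s := fun s => lt_of_lt_of_le (by linarith) (hlow s)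
  have hup : ∀ s, xd s ≤ (1 - t) + t * (1 / p) := by
    intro s
    show (1 - t) + t * (fb s / p) ≤ (1 - t) + t * (1 / p)
    have : fb s / p ≤ 1 / p := div_le_div_of_nonneg_right (hfbg.2 s).2 hp0.le
    have := mul_le_mul_of_nonneg_left this ht0
    linarith
  obtain ⟨Y, hYm, hYX, hcov⟩ := Pool.Agent.H75.reparam hxdm (by linarith : 0 < 1 - t) hlow hup
  let X : ℝ → ℝ := fun s => ∫ x in (0:ℝ)..s, xd x
  have hXprim : ∀ s, X s = (1 - t) * s + t * (prim fb s / p) := by
    intro s
    show ∫ x in (0:ℝ)..s, ((1 - t) + t * (fb x / p)) = _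
    rw [intervalIntegral.integral_add (by simp)
      (((hfbg.intervalIntegrable 0 s).div_const p).const_mul t)]
    rw [intervalIntegral.integral_const, intervalIntegral.integral_const_mul,
      intervalIntegral.integral_div]
    simp only [sub_zero, smul_eq_mul]
    unfold prim
    ring
  have hprimfb : ∀ s ∈ Icc (0:ℝ) 1, prim fb s = prim f s := by
    intro s hs
    refine intervalIntegral.integral_congr fun y hy => ?_
    rw [uIcc_of_le hs.1] at hy
    exact hfb y ⟨hy.1, hy.2.trans hs.2⟩
  have hX1 : X 1 = 1 := by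
    rw [hXprim, hprimfb 1 ⟨zero_le_one, le_rfl⟩, hp, div_self hp0.ne']
    ring
  let g : ℝ → ℝ := fun u => fb (Y u) / xd (Y u)
  have hgm : Measurable g := (hfbg.1.comp hYm).div (hxdm.comp hYm)
  have hfx : ∀ s, fb s ≤ xd s := by
    intro s
    show fb s ≤ (1 - t) + t * (fb s / p)
    have h0 := (hfbg.2 s).1
    have h1 := (hfbg.2 s).2
    have h2 : fb s ≤ fb s / p := by
      rw [le_div_iff₀ hp0]
      nlinarith
    nlinarith
  have hgg : Good g := by
    refine ⟨hgm, fun u => ⟨div_nonneg (hfbg.2 _).1 (hxpos _).le, ?_⟩⟩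
    exact (div_le_one (hxpos _)).2 (hfx _)
  have hgX : ∀ s, g (X s) = fb s / xd s := by
    intro s
    show fb (Y (X s)) / xd (Y (X s)) = _
    rw [hYX]
  have hgX' : ∀ s, g (X s) * xd s = fb s := by
    intro s
    rw [hgX, div_mul_cancel₀ _ (hxpos s).ne']
  have hprimg : ∀ s, 0 ≤ s → prim g (X s) = prim fb s := by
    intro s hs
    show ∫ u in (0:ℝ)..(X s), g u = _
    rw [hcov g hgm s hs]
    refine intervalIntegral.integral_congr fun y _ => ?_
    exact hgX' y
  have hpg : prim g 1 = p := by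
    have := hprimg 1 zero_le_one
    rw [hX1, hprimfb 1 ⟨zero_le_one, le_rfl⟩, hp] at this
    exact this
  -- change of variables on `[0,1]`
  have hcov1 : ∀ φ : ℝ → ℝ, Measurable φ →
      ∫ u in (0:ℝ)..1, φ u = ∫ r in (0:ℝ)..1, φ (X r) * xd r := by
    intro φ hφ
    have := hcov φ hφ 1 zero_le_one
    rw [show (∫ x in (0:ℝ)..1, xd x) = 1 from hX1] at this
    exact this
  have hint1 : IntervalIntegrable (fun r => (1 - f r) * prim f r) volume 0 1 :=
    (hf.compl.intervalIntegrable 0 1).mul_continuousOn hf.prim_continuous.continuousOn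
  have hint2 : IntervalIntegrable (fun r => f r * prim f r) volume 0 1 :=
    (hf.intervalIntegrable 0 1).mul_continuousOn hf.prim_continuous.continuousOn
  have hint3 : IntervalIntegrable (fun r => (1 - f r) * prim f r ^ 2) volume 0 1 :=
    (hf.compl.intervalIntegrable 0 1).mul_continuousOn (hf.prim_continuous.pow 2).continuousOn
  have hint4 : IntervalIntegrable (fun r => f r * prim f r ^ 2) volume 0 1 :=
    (hf.intervalIntegrable 0 1).mul_continuousOn (hf.prim_continuous.pow 2).continuousOn
  refine ⟨g, hgg, hpg, ?_, ?_, ?_⟩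
  · rw [rho_10 hgg, rho_10 hf]
    have h1 : ∫ y in (0:ℝ)..1, (1 - g y) * prim g y =
        ∫ r in (0:ℝ)..1, ((1 - t) * ((1 - f r) * prim f r) +
          (t * (1 / p - 1)) * (f r * prim f r)) := by
      rw [hcov1 (fun y => (1 - g y) * prim g y)
        ((measurable_const.sub hgm).mul hgg.prim_continuous.measurable)]
      refine intervalIntegral.integral_congr fun y hy => ?_
      rw [uIcc_of_le zero_le_one] at hy
      show (1 - g (X y)) * prim g (X y) * xd y = _
      rw [hprimg y hy.1, hprimfb y hy]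
      have h2 : (1 - g (X y)) * prim f y * xd y = (xd y - g (X y) * xd y) * prim f y := by ring
      rw [h2, hgX', hfb y hy]
      show ((1 - t) + t * (fb y / p) - f y) * prim f y = _
      rw [hfb y hy]
      ring
    rw [h1, intervalIntegral.integral_add (hint1.const_mul _) (hint2.const_mul _),
      intervalIntegral.integral_const_mul, intervalIntegral.integral_const_mul, prim_sq hf, hp]
    field_simp
  · rw [rho_110 hgg, rho_110 hf]
    have h1 : ∫ y in (0:ℝ)..1, (1 - g y) * prim g y ^ 2 =
        ∫ r in (0:ℝ)..1, ((1 - t) * ((1 - f r) * prim f r ^ 2) +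
          (t * (1 / p - 1)) * (f r * prim f r ^ 2)) := by
      rw [hcov1 (fun y => (1 - g y) * prim g y ^ 2)
        ((measurable_const.sub hgm).mul (hgg.prim_continuous.measurable.pow_const 2))]
      refine intervalIntegral.integral_congr fun y hy => ?_
      rw [uIcc_of_le zero_le_one] at hy
      show (1 - g (X y)) * prim g (X y) ^ 2 * xd y = _
      rw [hprimg y hy.1, hprimfb y hy]
      have h2 : (1 - g (X y)) * prim f y ^ 2 * xd y =
        (xd y - g (X y) * xd y) * prim f y ^ 2 := by ring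
      rw [h2, hgX', hfb y hy]
      show ((1 - t) + t * (fb y / p) - f y) * prim f y ^ 2 = _
      rw [hfb y hy]
      ring
    rw [h1, intervalIntegral.integral_add (hint3.const_mul _) (hint4.const_mul _),
      intervalIntegral.integral_const_mul, intervalIntegral.integral_const_mul, prim_cube hf, hp]
    field_simp
  · rw [Ent_eq, Ent_eq]
    have hSm : Measurable Real.binEntropy := Real.binEntropy_continuous.measurable
    rw [hcov1 (fun y => Real.binEntropy (g y)) (hSm.comp hgm)]
    have hbd : ∀ x ∈ Icc (0:ℝ) 1, |Real.binEntropy x| ≤ Real.log 2 := by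
      intro x hx
      rw [abs_of_nonneg (Real.binEntropy_nonneg hx.1 hx.2)]
      exact Real.binEntropy_le_log_two
    have hI1 : IntervalIntegrable (fun r => Real.binEntropy (f r)) volume 0 1 :=
      bddInt (hSm.comp hf.1) (fun x => hbd _ (hf.2 x)) 0 1
    have hI2 : IntervalIntegrable (fun r => Real.binEntropy (g (X r)) * xd r) volume 0 1 := by
      have hXm : Measurable X :=
        (intervalIntegral.continuous_primitive (fun a b => bddInt hxdm
          (C := (1 - t) + t * (1 / p)) (fun x => by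
            rw [abs_of_pos (hxpos x)]; exact hup x) a b) 0).measurable
      refine bddInt ((hSm.comp (hgm.comp hXm)).mul hxdm)
        (C := Real.log 2 * ((1 - t) + t * (1 / p))) ?_ 0 1
      intro x
      show |Real.binEntropy (g (X x)) * xd x| ≤ _
      rw [abs_mul]
      refine mul_le_mul (hbd _ (hgg.2 _)) ?_ (abs_nonneg _) (Real.log_nonneg (by norm_num))
      rw [abs_of_pos (hxpos x)]
      exact hup x
    have h1 : (1 - t) * (∫ x in (0:ℝ)..1, Real.binEntropy (f x)) + t * Real.binEntropy p =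
        ∫ r in (0:ℝ)..1, ((1 - t) * Real.binEntropy (f r) +
          (t * Real.binEntropy p / p) * f r) := by
      rw [intervalIntegral.integral_add (hI1.const_mul _) ((hf.intervalIntegrable 0 1).const_mul _),
        intervalIntegral.integral_const_mul, intervalIntegral.integral_const_mul]
      rw [show (∫ x in (0:ℝ)..1, f x) = p from hp]
      field_simp
    rw [h1]
    refine intervalIntegral.integral_mono_on zero_le_one
      ((hI1.const_mul _).add ((hf.intervalIntegrable 0 1).const_mul _)) hI2 ?_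
    intro r hr
    show _ ≤ Real.binEntropy (g (X r)) * xd r
    rw [hgX]
    have hw1 : 0 ≤ (1 - t) / xd r := div_nonneg (by linarith) (hxpos r).le
    have hw2 : 0 ≤ t * (f r / p) / xd r :=
      div_nonneg (mul_nonneg ht0 (div_nonneg (hf.2 r).1 hp0.le)) (hxpos r).le
    have hxr : xd r = (1 - t) + t * (f r / p) := by
      show (1 - t) + t * (fb r / p) = _
      rw [hfb r hr]
    have hw : (1 - t) / xd r + t * (f r / p) / xd r = 1 := by
      rw [← add_div, ← hxr, div_self (hxpos r).ne']
    have hconc := Real.strictConcave_binEntropy.concaveOn.2 (hf.2 r)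
      (show p ∈ Icc (0:ℝ) 1 from ⟨hp0.le, hp1.le⟩) hw1 hw2 hw
    simp only [smul_eq_mul] at hconc
    have harg : (1 - t) / xd r * f r + t * (f r / p) / xd r * p = fb r / xd r := by
      rw [hfb r hr]
      have := (hxpos r).ne'
      field_simp
      ring
    rw [harg] at hconc
    have := mul_le_mul_of_nonneg_right hconc (hxpos r).le
    refine le_trans (le_of_eq ?_) this
    have h3 := (hxpos r).ne'
    field_simp

theorem concave_aux : ConcaveOn ℝ (Icc (0:ℝ) 1) (fun y => Real.binEntropy y + 2 * y ^ 2) := by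
  have hd : ∀ x ∈ Ioo (0:ℝ) 1, HasDerivAt (fun y => Real.binEntropy y + 2 * y ^ 2)
      (Real.log (1 - x) - Real.log x + 4 * x) x := by
    intro x hx
    have h1 := Real.hasDerivAt_binEntropy (p := x) hx.1.ne' hx.2.ne
    have h2 : HasDerivAt (fun y : ℝ => 2 * y ^ 2) (4 * x) x := by
      have := (hasDerivAt_pow 2 x).const_mul 2
      convert! this using 1
      push_cast
      ring
    exact h1.add h2
  have hd2 : ∀ x ∈ Ioo (0:ℝ) 1, HasDerivAt (deriv (fun y => Real.binEntropy y + 2 * y ^ 2))
      (-1 / (1 - x) - 1 / x + 4) x := by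
    intro x hx
    have h1 : HasDerivAt (fun y => Real.log (1 - y) - Real.log y + 4 * y)
        (-1 / (1 - x) - 1 / x + 4) x := by
      have h2 : HasDerivAt (fun y : ℝ => Real.log (1 - y)) (-1 / (1 - x)) x := by
        have h3 : HasDerivAt (fun y : ℝ => 1 - y) (-1) x := by
          simpa using (hasDerivAt_id x).const_sub 1
        exact h3.log (by have := hx.2; simp only [ne_eq]; linarith)
      have h4 : HasDerivAt (fun y : ℝ => Real.log y) (1 / x) x := by
        rw [one_div]; exact Real.hasDerivAt_log hx.1.ne'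
      have h5 : HasDerivAt (fun y : ℝ => 4 * y) 4 x := by
        simpa using (hasDerivAt_id x).const_mul (4:ℝ)
      exact (h2.sub h4).add h5
    refine h1.congr_of_eventuallyEq ?_
    filter_upwards [isOpen_Ioo.mem_nhds hx] with y hy
    exact (hd y hy).deriv
  refine concaveOn_of_deriv2_nonpos (convex_Icc 0 1) ?_ ?_ ?_ ?_
  · exact (Real.binEntropy_continuous.add (by fun_prop)).continuousOn
  · rw [interior_Icc]
    intro x hx
    exact (hd x hx).differentiableAt.differentiableWithinAt
  · rw [interior_Icc]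
    intro x hx
    exact (hd2 x hx).differentiableAt.differentiableWithinAt
  · rw [interior_Icc]
    intro x hx
    show deriv (deriv _) x ≤ 0
    rw [(hd2 x hx).deriv]
    have h1 : 0 < 1 - x := by linarith [hx.2]
    have h2 := hx.1
    have h3 : -1 / (1 - x) - 1 / x + 4 = -(1 - 2 * x) ^ 2 / (x * (1 - x)) := by
      field_simp
      ring
    rw [h3]
    apply div_nonpos_of_nonpos_of_nonneg
    · nlinarith [sq_nonneg (1 - 2 * x)]
    · positivity

theorem jensen {f : ℝ → ℝ} (hf : Good f) {p : ℝ} (hp : prim f 1 = p) :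
    Ent f ≤ Real.binEntropy p - 2 * ∫ x in (0:ℝ)..1, (f x - p) ^ 2 := by
  have hprob : IsProbabilityMeasure ((volume : Measure ℝ).restrict (Ioc 0 1)) := ⟨by simp⟩
  have hbd : ∀ x ∈ Icc (0:ℝ) 1, |Real.binEntropy x| ≤ Real.log 2 := by
    intro x hx
    rw [abs_of_nonneg (Real.binEntropy_nonneg hx.1 hx.2)]
    exact Real.binEntropy_le_log_two
  have hSm : Measurable Real.binEntropy := Real.binEntropy_continuous.measurable
  have hI0 := hf.intervalIntegrable 0 1
  have hI1 : IntervalIntegrable (fun r => Real.binEntropy (f r)) volume 0 1 :=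
    bddInt (hSm.comp hf.1) (fun x => hbd _ (hf.2 x)) 0 1
  have hI2 : IntervalIntegrable (fun r => f r ^ 2) volume 0 1 := by
    refine bddInt (hf.1.pow_const 2) (C := 1) (fun x => ?_) 0 1
    rw [abs_of_nonneg (sq_nonneg _)]
    exact pow_le_one₀ (hf.2 x).1 (hf.2 x).2
  have h := concave_aux.le_map_integral (μ := (volume : Measure ℝ).restrict (Ioc 0 1)) (f := f)
    ((Real.binEntropy_continuous.add (by fun_prop)).continuousOn) isClosed_Icc
    (Filter.Eventually.of_forall hf.2) ((intervalIntegrable_iff_integrableOn_Ioc_of_le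
      zero_le_one).1 hI0)
    ((intervalIntegrable_iff_integrableOn_Ioc_of_le zero_le_one).1
      (hI1.add (hI2.const_mul 2)))
  rw [← intervalIntegral.integral_of_le zero_le_one, ← intervalIntegral.integral_of_le zero_le_one,
    show (∫ x in (0:ℝ)..1, f x) = p from hp, intervalIntegral.integral_add hI1 (hI2.const_mul 2),
    intervalIntegral.integral_const_mul, ← Ent_eq] at h
  have h2 : ∫ x in (0:ℝ)..1, (f x - p) ^ 2 = (∫ x in (0:ℝ)..1, f x ^ 2) - p ^ 2 := by
    have h3 : ∫ x in (0:ℝ)..1, (f x - p) ^ 2 =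
        ∫ x in (0:ℝ)..1, ((f x ^ 2 - (2 * p) * f x) + p ^ 2) := by
      refine intervalIntegral.integral_congr fun y _ => ?_
      ring
    rw [h3, intervalIntegral.integral_add (hI2.sub (hI0.const_mul _)) (by simp),
      intervalIntegral.integral_sub hI2 (hI0.const_mul _), intervalIntegral.integral_const_mul,
      show (∫ x in (0:ℝ)..1, f x) = p from hp]
    simp
    ring
  rw [h2]
  linarith

theorem Ent_le {f : ℝ → ℝ} (hf : Good f) {p : ℝ} (hp : prim f 1 = p) :
    Ent f ≤ Real.binEntropy p - (rho [true, true, false] f - p ^ 2 * (1 - p)) ^ 2 / 18 := by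
  have hp01 : p ∈ Icc (0:ℝ) 1 := by
    rw [← hp]; exact hf.prim_mem ⟨zero_le_one, le_rfl⟩
  set D := ∫ x in (0:ℝ)..1, (f x - p) ^ 2 with hD
  set δ := |rho [true, true, false] f - p ^ 2 * (1 - p)| with hδ
  have hJ := jensen hf hp
  have hDm : Measurable (fun x => (f x - p) ^ 2) := (hf.1.sub_const p).pow_const 2
  have hle1 : ∀ x, |f x - p| ≤ 1 := by
    intro x
    rw [abs_le]
    constructor <;> linarith [(hf.2 x).1, (hf.2 x).2, hp01.1, hp01.2]
  have hDint : ∀ a b, IntervalIntegrable (fun x => (f x - p) ^ 2) volume a b := by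
    intro a b
    refine bddInt hDm (C := 1) (fun x => ?_) a b
    rw [abs_of_nonneg (sq_nonneg _), ← sq_abs]
    exact pow_le_one₀ (abs_nonneg _) (hle1 x)
  -- uniform bound on the primitive
  have hunif : ∀ l : ℝ, 0 < l → ∀ s ∈ Icc (0:ℝ) 1, |prim f s - p * s| ≤ l / 2 + D / (2 * l) := by
    intro l hl s hs
    have h1 : prim f s - p * s = ∫ x in (0:ℝ)..s, (f x - p) := by
      rw [intervalIntegral.integral_sub (hf.intervalIntegrable 0 s) (by simp)]
      simp [prim, mul_comm]
    have h2 : ∀ x, |f x - p| ≤ l / 2 + (1 / (2 * l)) * (f x - p) ^ 2 := by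
      intro x
      have h3 : 0 ≤ (|f x - p| - l) ^ 2 / (2 * l) := by positivity
      have h4 : (|f x - p| - l) ^ 2 / (2 * l) =
          (1 / (2 * l)) * (f x - p) ^ 2 - |f x - p| + l / 2 := by
        rw [← sq_abs (f x - p)]
        field_simp
        ring
      linarith
    have h5 : IntervalIntegrable (fun x => |f x - p|) volume 0 1 := by
      refine bddInt (hf.1.sub_const p).abs (C := 1) (fun x => ?_) 0 1
      rw [abs_abs]; exact hle1 x
    calc |prim f s - p * s| = |∫ x in (0:ℝ)..s, (f x - p)| := by rw [h1]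
      _ ≤ ∫ x in (0:ℝ)..s, |f x - p| := intervalIntegral.abs_integral_le_integral_abs hs.1
      _ ≤ ∫ x in (0:ℝ)..1, |f x - p| := by
          refine intervalIntegral.integral_mono_interval le_rfl hs.1 hs.2
            (Filter.Eventually.of_forall fun x => abs_nonneg _) h5
      _ ≤ ∫ x in (0:ℝ)..1, (l / 2 + (1 / (2 * l)) * (f x - p) ^ 2) :=
          intervalIntegral.integral_mono_on zero_le_one h5
            ((by simp : IntervalIntegrable (fun _ => l / 2) volume 0 1).add
              ((hDint 0 1).const_mul _)) (fun x _ => h2 x)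
      _ = l / 2 + D / (2 * l) := by
          rw [intervalIntegral.integral_add (by simp) ((hDint 0 1).const_mul _),
            intervalIntegral.integral_const_mul, ← hD]
          simp
          ring
  -- the difference of the densities
  have hF := hf.prim_continuous
  have hdiff : rho [true, true, false] f - p ^ 2 * (1 - p) =
      3 * ∫ s in (0:ℝ)..1, (prim f s - p * s) * (prim f s + p * s) := by
    have h1 : ∫ y in (0:ℝ)..1, (1 - f y) * prim f y ^ 2 =
        (∫ y in (0:ℝ)..1, prim f y ^ 2) - p ^ 3 / 3 := by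
      rw [← hp, ← prim_cube hf, ← intervalIntegral.integral_sub]
      · refine intervalIntegral.integral_congr fun y _ => ?_
        ring
      · exact (hF.pow 2).intervalIntegrable 0 1
      · exact (hf.intervalIntegrable 0 1).mul_continuousOn (hF.pow 2).continuousOn
    have h2 : ∫ s in (0:ℝ)..1, (prim f s - p * s) * (prim f s + p * s) =
        (∫ y in (0:ℝ)..1, prim f y ^ 2) - p ^ 2 / 3 := by
      have h3 : ∫ s in (0:ℝ)..1, (p * s) ^ 2 = p ^ 2 / 3 := by
        simp only [mul_pow]
        rw [intervalIntegral.integral_const_mul, integral_pow]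
        norm_num
        ring
      rw [← h3, ← intervalIntegral.integral_sub]
      · refine intervalIntegral.integral_congr fun y _ => ?_
        ring
      · exact (hF.pow 2).intervalIntegrable 0 1
      · exact (by fun_prop : Continuous fun s : ℝ => (p * s) ^ 2).intervalIntegrable 0 1
    rw [rho_110 hf, h1, h2]
    ring
  have hδle : ∀ l : ℝ, 0 < l → δ ≤ 6 * (l / 2 + D / (2 * l)) := by
    intro l hl
    have hM : 0 ≤ l / 2 + D / (2 * l) :=
      (abs_nonneg _).trans (hunif l hl 0 ⟨le_rfl, zero_le_one⟩)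
    rw [hδ, hdiff, abs_mul, abs_of_pos (by norm_num : (0:ℝ) < 3)]
    have h1 : |∫ s in (0:ℝ)..1, (prim f s - p * s) * (prim f s + p * s)| ≤
        (l / 2 + D / (2 * l)) * 2 * |1 - 0| := by
      rw [← Real.norm_eq_abs]
      refine intervalIntegral.norm_integral_le_of_norm_le_const ?_
      intro s hs
      rw [uIoc_of_le zero_le_one] at hs
      have hs' : s ∈ Icc (0:ℝ) 1 := ⟨hs.1.le, hs.2⟩
      rw [norm_mul, Real.norm_eq_abs, Real.norm_eq_abs]
      refine mul_le_mul (hunif l hl s hs') ?_ (abs_nonneg _) hM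
      have h2 := hf.prim_mem hs'
      rw [abs_of_nonneg (add_nonneg h2.1 (mul_nonneg hp01.1 hs'.1))]
      have h3 : p * s ≤ 1 := mul_le_one₀ hp01.2 hs'.1 hs'.2
      linarith [h2.2]
    simp at h1
    linarith
  have hfinal : δ ^ 2 / 36 ≤ D := by
    rcases (abs_nonneg (rho [true, true, false] f - p ^ 2 * (1 - p))).eq_or_lt with h0 | h0
    · rw [← hδ] at h0
      rw [← h0]
      have : 0 ≤ D := by
        rw [hD]
        exact intervalIntegral.integral_nonneg zero_le_one (fun x _ => sq_nonneg _)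
      simpa using this
    · rw [← hδ] at h0
      have h1 := hδle (δ / 6) (by positivity)
      have h2 : 6 * (δ / 6 / 2 + D / (2 * (δ / 6))) = δ / 2 + 18 * D / δ := by
        field_simp
        ring
      rw [h2] at h1
      have h3 : δ / 2 ≤ 18 * D / δ := by linarith
      rw [le_div_iff₀ h0] at h3
      nlinarith
  have hsq : δ ^ 2 = (rho [true, true, false] f - p ^ 2 * (1 - p)) ^ 2 := by
    rw [hδ, sq_abs]
  rw [← hsq]
  linarith

/-! ### Constant densities -/

theorem good_const {c : ℝ} (hc : c ∈ Icc (0:ℝ) 1) : Good (fun _ => c) :=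
  ⟨measurable_const, fun _ => hc⟩

theorem prim_const (c s : ℝ) : prim (fun _ => c) s = c * s := by
  simp [prim, mul_comm]

theorem rho_const {c : ℝ} (hc : c ∈ Icc (0:ℝ) 1) :
    rho [true, false] (fun _ => c) = c * (1 - c) ∧
    rho [false, true] (fun _ => c) = c * (1 - c) ∧
    rho [true, true, false] (fun _ => c) = c ^ 2 * (1 - c) := by
  have h10 : rho [true, false] (fun _ => c) = c * (1 - c) := by
    rw [rho_10 (good_const hc)]
    simp only [prim_const]
    rw [intervalIntegral.integral_const_mul, intervalIntegral.integral_const_mul, integral_id]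
    ring
  refine ⟨h10, ?_, ?_⟩
  · have := rho_10_add_rho_01 (good_const hc)
    rw [h10, prim_const] at this
    linarith
  · rw [rho_110 (good_const hc)]
    simp only [prim_const, mul_pow]
    rw [intervalIntegral.integral_const_mul, intervalIntegral.integral_const_mul, integral_pow]
    norm_num
    ring

theorem Ent_const (c : ℝ) : Ent (fun _ => c) = Real.binEntropy c := by
  rw [Ent_eq]; simp

/-! ### A three-parameter family of densities -/

/-- Quadratic densities. -/
noncomputable def quad (p β γ : ℝ) (s : ℝ) : ℝ :=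
  (Icc (0:ℝ) 1).indicator (fun s => p + β * (2 * s - 1) + γ * (6 * s ^ 2 - 6 * s + 1)) s

theorem good_quad {p β γ : ℝ} (hp1 : 2 / 5 < p) (hp2 : p < 3 / 5) (hβ : |β| < 1 / 5)
    (hγ : |γ| < 1 / 5) : Good (quad p β γ) := by
  rw [abs_lt] at hβ hγ
  refine ⟨Measurable.indicator (by fun_prop) measurableSet_Icc, fun s => ?_⟩
  unfold quad
  by_cases hs : s ∈ Icc (0:ℝ) 1
  · rw [indicator_of_mem hs]
    have h1 : |2 * s - 1| ≤ 1 := by
      rw [abs_le]; constructor <;> linarith [hs.1, hs.2]
    have h2 : |6 * s ^ 2 - 6 * s + 1| ≤ 1 := by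
      rw [abs_le]
      constructor
      · nlinarith [sq_nonneg (2 * s - 1)]
      · nlinarith [mul_nonneg hs.1 (sub_nonneg.2 hs.2)]
    have h3 : |β * (2 * s - 1)| ≤ 1 / 5 := by
      rw [abs_mul]
      have := abs_lt.2 hβ
      nlinarith [abs_nonneg β, abs_nonneg (2 * s - 1)]
    have h4 : |γ * (6 * s ^ 2 - 6 * s + 1)| ≤ 1 / 5 := by
      rw [abs_mul]
      have := abs_lt.2 hγ
      nlinarith [abs_nonneg γ, abs_nonneg (6 * s ^ 2 - 6 * s + 1)]
    rw [abs_le] at h3 h4
    constructor <;> linarith [h3.1, h3.2, h4.1, h4.2]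
  · rw [indicator_of_notMem hs]
    exact ⟨le_rfl, zero_le_one⟩

theorem prim_quad {p β γ : ℝ} {s : ℝ} (hs : s ∈ Icc (0:ℝ) 1) :
    prim (quad p β γ) s = p * s + β * (s ^ 2 - s) + γ * (2 * s ^ 3 - 3 * s ^ 2 + s) := by
  have h1 : prim (quad p β γ) s =
      ∫ x in (0:ℝ)..s, (p + β * (2 * x - 1) + γ * (6 * x ^ 2 - 6 * x + 1)) := by
    refine intervalIntegral.integral_congr fun y hy => ?_
    rw [uIcc_of_le hs.1] at hy
    exact indicator_of_mem (show y ∈ Icc (0:ℝ) 1 from ⟨hy.1, hy.2.trans hs.2⟩) _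
  rw [h1]
  have h2 : ∀ x : ℝ, HasDerivAt (fun s => p * s + β * (s ^ 2 - s) +
      γ * (2 * s ^ 3 - 3 * s ^ 2 + s)) (p + β * (2 * x - 1) + γ * (6 * x ^ 2 - 6 * x + 1)) x := by
    intro x
    have e1 := hasDerivAt_id x
    have e2 := hasDerivAt_pow 2 x
    have e3 := hasDerivAt_pow 3 x
    have := ((e1.const_mul p).add ((e2.sub e1).const_mul β)).add
      ((((e3.const_mul 2).sub (e2.const_mul 3)).add e1).const_mul γ)
    convert! this using 1
    push_cast
    ring
  rw [intervalIntegral.integral_eq_sub_of_hasDerivAt (fun x _ => h2 x)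
    ((by fun_prop : Continuous _).intervalIntegrable _ _)]
  ring

theorem rho_quad {p β γ : ℝ} (hp1 : 2 / 5 < p) (hp2 : p < 3 / 5) (hβ : |β| < 1 / 5)
    (hγ : |γ| < 1 / 5) :
    rho [true, false] (quad p β γ) = p - p ^ 2 - β / 3 ∧
    rho [false, true] (quad p β γ) = 2 * (p * (1 - p)) - (p - p ^ 2 - β / 3) ∧
    rho [true, true, false] (quad p β γ) =
      p ^ 2 - p ^ 3 + β ^ 2 / 10 + γ ^ 2 / 70 - p * β / 2 - p * γ / 10 := by
  have hg := good_quad hp1 hp2 hβ hγ
  have hp : prim (quad p β γ) 1 = p := by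
    rw [prim_quad (show (1:ℝ) ∈ Icc (0:ℝ) 1 from ⟨zero_le_one, le_rfl⟩)]; ring
  have hF := hg.prim_continuous
  have h10 : rho [true, false] (quad p β γ) = p - p ^ 2 - β / 3 := by
    rw [rho_10 hg]
    have h1 : ∫ y in (0:ℝ)..1, (1 - quad p β γ y) * prim (quad p β γ) y =
        (∫ y in (0:ℝ)..1, prim (quad p β γ) y) - p ^ 2 / 2 := by
      have h0 := prim_sq hg 1
      rw [hp] at h0
      rw [← h0, ← intervalIntegral.integral_sub]
      · refine intervalIntegral.integral_congr fun y _ => ?_
        ring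
      · exact hF.intervalIntegrable 0 1
      · exact (hg.intervalIntegrable 0 1).mul_continuousOn hF.continuousOn
    have h2 : ∫ y in (0:ℝ)..1, prim (quad p β γ) y = p / 2 - β / 6 := by
      have h3 : ∫ y in (0:ℝ)..1, prim (quad p β γ) y =
          ∫ s in (0:ℝ)..1, (p * s + β * (s ^ 2 - s) + γ * (2 * s ^ 3 - 3 * s ^ 2 + s)) := by
        refine intervalIntegral.integral_congr fun y hy => ?_
        rw [uIcc_of_le zero_le_one] at hy
        exact prim_quad hy
      rw [h3]
      have h4 : ∀ x : ℝ, HasDerivAt (fun s => p * s ^ 2 / 2 + β * (s ^ 3 / 3 - s ^ 2 / 2) +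
          γ * (s ^ 4 / 2 - s ^ 3 + s ^ 2 / 2))
          (p * x + β * (x ^ 2 - x) + γ * (2 * x ^ 3 - 3 * x ^ 2 + x)) x := by
        intro x
        have e2 := hasDerivAt_pow 2 x
        have e3 := hasDerivAt_pow 3 x
        have e4 := hasDerivAt_pow 4 x
        have := (((e2.const_mul p).div_const 2).add
          (((e3.div_const 3).sub (e2.div_const 2)).const_mul β)).add
          ((((e4.div_const 2).sub e3).add (e2.div_const 2)).const_mul γ)
        convert! this using 1
        push_cast
        ring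
      rw [intervalIntegral.integral_eq_sub_of_hasDerivAt (fun x _ => h4 x)
        ((by fun_prop : Continuous _).intervalIntegrable _ _)]
      ring
    rw [h1, h2]
    ring
  refine ⟨h10, ?_, ?_⟩
  · have := rho_10_add_rho_01 hg
    rw [h10, hp] at this
    linarith
  · rw [rho_110 hg]
    have h1 : ∫ y in (0:ℝ)..1, (1 - quad p β γ y) * prim (quad p β γ) y ^ 2 =
        (∫ y in (0:ℝ)..1, prim (quad p β γ) y ^ 2) - p ^ 3 / 3 := by
      have h0 := prim_cube hg
      rw [hp] at h0
      rw [← h0, ← intervalIntegral.integral_sub]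
      · refine intervalIntegral.integral_congr fun y _ => ?_
        ring
      · exact (hF.pow 2).intervalIntegrable 0 1
      · exact (hg.intervalIntegrable 0 1).mul_continuousOn (hF.pow 2).continuousOn
    have h2 : ∫ y in (0:ℝ)..1, prim (quad p β γ) y ^ 2 =
        p ^ 2 / 3 + β ^ 2 / 30 + γ ^ 2 / 210 - p * β / 6 - p * γ / 30 := by
      have h3 : ∫ y in (0:ℝ)..1, prim (quad p β γ) y ^ 2 =
          ∫ s in (0:ℝ)..1, (p * s + β * (s ^ 2 - s) + γ * (2 * s ^ 3 - 3 * s ^ 2 + s)) ^ 2 := by
        refine intervalIntegral.integral_congr fun y hy => ?_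
        rw [uIcc_of_le zero_le_one] at hy
        show prim (quad p β γ) y ^ 2 = _
        rw [prim_quad hy]
      rw [h3]
      have h4 : ∀ x : ℝ, HasDerivAt (fun s => (p - β + γ) ^ 2 * s ^ 3 / 3 +
          2 * (p - β + γ) * (β - 3 * γ) * s ^ 4 / 4 +
          ((β - 3 * γ) ^ 2 + 4 * (p - β + γ) * γ) * s ^ 5 / 5 +
          4 * (β - 3 * γ) * γ * s ^ 6 / 6 + 4 * γ ^ 2 * s ^ 7 / 7)
          ((p * x + β * (x ^ 2 - x) + γ * (2 * x ^ 3 - 3 * x ^ 2 + x)) ^ 2) x := by
        intro x
        have e3 := hasDerivAt_pow 3 x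
        have e4 := hasDerivAt_pow 4 x
        have e5 := hasDerivAt_pow 5 x
        have e6 := hasDerivAt_pow 6 x
        have e7 := hasDerivAt_pow 7 x
        have := (((((e3.const_mul ((p - β + γ) ^ 2)).div_const 3).add
          ((e4.const_mul (2 * (p - β + γ) * (β - 3 * γ))).div_const 4)).add
          ((e5.const_mul ((β - 3 * γ) ^ 2 + 4 * (p - β + γ) * γ)).div_const 5)).add
          ((e6.const_mul (4 * (β - 3 * γ) * γ)).div_const 6)).add
          ((e7.const_mul (4 * γ ^ 2)).div_const 7)
        convert! this using 1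
        push_cast
        ring
      rw [intervalIntegral.integral_eq_sub_of_hasDerivAt (fun x _ => h4 x)
        ((by fun_prop : Continuous _).intervalIntegrable _ _)]
      ring
    rw [h1, h2]
    ring

/-! ### The list of words `10, 01, 110` -/

/-- The list of words `10, 01, 110`. -/
def words : Fin 3 → List Bool := ![[true, false], [false, true], [true, true, false]]

theorem mem_feasible {δ : Fin 3 → ℝ} (f : ℝ → ℝ)
    (h0 : rho [true, false] f = δ 0) (h1 : rho [false, true] f = δ 1)
    (h2 : rho [true, true, false] f = δ 2) : ∀ i, rho (words i) f = δ i := by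
  intro i
  fin_cases i
  · exact h0
  · exact h1
  · exact h2

/-- The mean density determined by the densities of `10` and `01` (upper branch). -/
noncomputable def pOf (d : Fin 3 → ℝ) : ℝ := (1 + Real.sqrt (1 - 2 * (d 0 + d 1))) / 2

/-- The linear coefficient. -/
noncomputable def bOf (d : Fin 3 → ℝ) : ℝ := 3 * (pOf d - pOf d ^ 2 - d 0)

/-- Constant term of the quadratic equation for the last coefficient. -/
noncomputable def cOf (d : Fin 3 → ℝ) : ℝ :=
  pOf d ^ 2 - pOf d ^ 3 + bOf d ^ 2 / 10 - pOf d * bOf d / 2 - d 2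

/-- Discriminant. -/
noncomputable def discOf (d : Fin 3 → ℝ) : ℝ := pOf d ^ 2 / 100 - 2 / 35 * cOf d

/-- The quadratic coefficient. -/
noncomputable def gOf (d : Fin 3 → ℝ) : ℝ := 35 * (pOf d / 10 - Real.sqrt (discOf d))

/-- An open set of feasible points. -/
def good : Set (Fin 3 → ℝ) :=
  {d | 0 < 1 - 2 * (d 0 + d 1)} ∩ {d | 2 / 5 < pOf d} ∩ {d | pOf d < 3 / 5} ∩
    {d | |bOf d| < 1 / 5} ∩ {d | |gOf d| < 1 / 5} ∩ {d | 0 < discOf d}

theorem continuous_pOf : Continuous pOf := by unfold pOf; fun_prop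
theorem continuous_bOf : Continuous bOf := by
  have := continuous_pOf
  unfold bOf; fun_prop
theorem continuous_cOf : Continuous cOf := by
  have := continuous_pOf
  have := continuous_bOf
  unfold cOf; fun_prop
theorem continuous_discOf : Continuous discOf := by
  have := continuous_pOf
  have := continuous_cOf
  unfold discOf; fun_prop
theorem continuous_gOf : Continuous gOf := by
  have := continuous_pOf
  have := continuous_discOf
  unfold gOf; fun_prop

theorem isOpen_good : IsOpen good := by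
  have h1 := continuous_pOf
  have h2 := continuous_bOf
  have h3 := continuous_gOf
  have h4 := continuous_discOf
  unfold good
  refine ((((IsOpen.inter ?_ ?_).inter ?_).inter ?_).inter ?_).inter ?_
  · exact isOpen_lt continuous_const (by fun_prop)
  · exact isOpen_lt continuous_const h1
  · exact isOpen_lt h1 continuous_const
  · exact isOpen_lt h2.abs continuous_const
  · exact isOpen_lt h3.abs continuous_const
  · exact isOpen_lt continuous_const h4

theorem good_subset : good ⊆ feasible words := by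
  rintro d ⟨⟨⟨⟨⟨h0, h1⟩, h2⟩, h3⟩, h4⟩, h5⟩
  simp only [mem_ofPred_eq] at h0 h1 h2 h3 h4 h5
  obtain ⟨r1, r2, r3⟩ := rho_quad h1 h2 h3 h4
  have hs := Real.sq_sqrt h0.le
  have hp : 2 * (pOf d * (1 - pOf d)) = d 0 + d 1 := by
    unfold pOf
    nlinarith [hs]
  refine ⟨quad (pOf d) (bOf d) (gOf d), (good_quad h1 h2 h3 h4).isDensity,
    mem_feasible _ ?_ ?_ ?_⟩
  · rw [r1]; unfold bOf; ring
  · rw [r2, hp]; unfold bOf; ring
  · rw [r3]
    have hs2 := Real.sq_sqrt h5.le
    have hg : gOf d ^ 2 / 70 - pOf d * gOf d / 10 + cOf d = 0 := by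
      have e1 : gOf d = 35 * (pOf d / 10 - Real.sqrt (discOf d)) := rfl
      have e2 : Real.sqrt (discOf d) ^ 2 = pOf d ^ 2 / 100 - 2 / 35 * cOf d := hs2
      rw [e1]
      linear_combination (35 / 2 : ℝ) * e2
    have e3 : cOf d = pOf d ^ 2 - pOf d ^ 3 + bOf d ^ 2 / 10 - pOf d * bOf d / 2 - d 2 := rfl
    rw [e3] at hg
    linarith

/-- The points of the segment considered below. -/
noncomputable def seg (x : ℝ) : Fin 3 → ℝ := ![2499 / 10000, 2499 / 10000, x]

theorem seg_mem_good {x : ℝ} (hx : x ∈ Icc (2499 / 10000 * (49 / 100) : ℝ) (2499 / 10000 * (51 / 100))) :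
    seg x ∈ good := by
  obtain ⟨hx1, hx2⟩ := hx
  have e0 : seg x 0 = 2499 / 10000 := rfl
  have e1 : seg x 1 = 2499 / 10000 := rfl
  have e2 : seg x 2 = x := rfl
  have hp : pOf (seg x) = 51 / 100 := by
    unfold pOf
    rw [e0, e1]
    have : (1 - 2 * (2499 / 10000 + 2499 / 10000) : ℝ) = (1 / 50) ^ 2 := by norm_num
    rw [this, Real.sqrt_sq (by norm_num)]
    norm_num
  have hb : bOf (seg x) = 0 := by
    unfold bOf
    rw [hp, e0]
    norm_num
  have hc : cOf (seg x) = 2499 / 10000 * (51 / 100) - x := by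
    unfold cOf
    rw [hp, hb, e2]
    norm_num
  have hd : discOf (seg x) = (51 / 100) ^ 2 / 100 - 2 / 35 * (2499 / 10000 * (51 / 100) - x) := by
    unfold discOf
    rw [hp, hc]
  have hdlow : (25 / 544 : ℝ) ^ 2 < discOf (seg x) := by
    rw [hd]; nlinarith
  have hdup : discOf (seg x) ≤ (51 / 1000) ^ 2 := by
    rw [hd]; nlinarith
  have hs1 : Real.sqrt (discOf (seg x)) ≤ 51 / 1000 := by
    rw [Real.sqrt_le_left (by norm_num)]; exact hdup
  have hs2 : 25 / 544 < Real.sqrt (discOf (seg x)) := by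
    rw [Real.lt_sqrt (by norm_num)]; exact hdlow
  refine ⟨⟨⟨⟨⟨?_, ?_⟩, ?_⟩, ?_⟩, ?_⟩, ?_⟩
  · show 0 < 1 - 2 * (seg x 0 + seg x 1)
    rw [e0, e1]; norm_num
  · show 2 / 5 < pOf (seg x)
    rw [hp]; norm_num
  · show pOf (seg x) < 3 / 5
    rw [hp]; norm_num
  · show |bOf (seg x)| < 1 / 5
    rw [hb]; norm_num
  · show |gOf (seg x)| < 1 / 5
    unfold gOf
    rw [hp, abs_lt]
    constructor <;> linarith
  · show 0 < discOf (seg x)
    have : (0:ℝ) < (25 / 544) ^ 2 := by norm_num
    linarith

theorem seg_mem_interior {x : ℝ}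
    (hx : x ∈ Icc (2499 / 10000 * (49 / 100) : ℝ) (2499 / 10000 * (51 / 100))) :
    seg x ∈ interior (feasible words) :=
  interior_mono good_subset (by rw [isOpen_good.interior_eq]; exact seg_mem_good hx)

/-- The two branches. -/
theorem branch {f : ℝ → ℝ} (hf : Good f) (h0 : rho [true, false] f = 2499 / 10000)
    (h1 : rho [false, true] f = 2499 / 10000) : prim f 1 = 51 / 100 ∨ prim f 1 = 49 / 100 := by
  have h := rho_10_add_rho_01 hf
  rw [h0, h1] at h
  have h2 : (prim f 1 - 51 / 100) * (prim f 1 - 49 / 100) = 0 := by nlinarith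
  rcases mul_eq_zero.1 h2 with h3 | h3
  · left; linarith
  · right; linarith

theorem entropy_branch : Real.binEntropy (49 / 100) = Real.binEntropy (51 / 100) := by
  have := Real.binEntropy_one_sub (51 / 100)
  norm_num at this ⊢
  exact this

/-- The set of entropies of densities over a point of the segment. -/
def ents (x : ℝ) : Set ℝ :=
  {e | ∃ f, IsDensity f ∧ (∀ i, rho (words i) f = seg x i) ∧ Ent f = e}

theorem ents_le {x e : ℝ} (he : e ∈ ents x) : ∃ f, Good f ∧ rho [true, false] f = 2499 / 10000 ∧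
    rho [false, true] f = 2499 / 10000 ∧ rho [true, true, false] f = x ∧ Ent f = e ∧
    ((prim f 1 = 51 / 100 ∧
      e ≤ Real.binEntropy (51 / 100) - (x - 2499 / 10000 * (51 / 100)) ^ 2 / 18) ∨
     (prim f 1 = 49 / 100 ∧
      e ≤ Real.binEntropy (51 / 100) - (x - 2499 / 10000 * (49 / 100)) ^ 2 / 18)) := by
  obtain ⟨f0, hf0, h, hE⟩ := he
  obtain ⟨f, hf, hr, hEf⟩ := hf0.exists_good
  have h0 : rho [true, false] f = 2499 / 10000 := (hr _).trans (h 0)
  have h1 : rho [false, true] f = 2499 / 10000 := (hr _).trans (h 1)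
  have h2 : rho [true, true, false] f = x := (hr _).trans (h 2)
  refine ⟨f, hf, h0, h1, h2, hEf.trans hE, ?_⟩
  rcases branch hf h0 h1 with hp | hp
  · left
    refine ⟨hp, ?_⟩
    have := Ent_le hf hp
    rw [h2, hEf, hE] at this
    norm_num at this ⊢
    exact this
  · right
    refine ⟨hp, ?_⟩
    have := Ent_le hf hp
    rw [h2, hEf, hE, entropy_branch] at this
    norm_num at this ⊢
    exact this

theorem ents_bddAbove (x : ℝ) : BddAbove (ents x) := by
  refine ⟨Real.binEntropy (51 / 100), fun e he => ?_⟩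
  obtain ⟨f, -, -, -, -, -, h⟩ := ents_le he
  rcases h with ⟨-, h⟩ | ⟨-, h⟩
  · nlinarith [sq_nonneg (x - 2499 / 10000 * (51 / 100))]
  · nlinarith [sq_nonneg (x - 2499 / 10000 * (49 / 100))]

theorem ents_nonempty {x : ℝ}
    (hx : x ∈ Icc (2499 / 10000 * (49 / 100) : ℝ) (2499 / 10000 * (51 / 100))) :
    (ents x).Nonempty := by
  obtain ⟨f, hf, h⟩ := interior_subset (seg_mem_interior hx)
  exact ⟨_, f, hf, h, rfl⟩

/-- The entropy function on the segment. -/
noncomputable def gfun (x : ℝ) : ℝ := entropyFn words (seg x)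

theorem gfun_eq (x : ℝ) : gfun x = sSup (ents x) := rfl

theorem le_gfun {x e : ℝ} (he : e ∈ ents x) : e ≤ gfun x := le_csSup (ents_bddAbove x) he

theorem gfun_left : Real.binEntropy (51 / 100) ≤ gfun (2499 / 10000 * (49 / 100)) := by
  have hc : (49 / 100 : ℝ) ∈ Icc (0:ℝ) 1 := by constructor <;> norm_num
  obtain ⟨h0, h1, h2⟩ := rho_const hc
  apply le_gfun
  refine ⟨fun _ => 49 / 100, (good_const hc).isDensity, mem_feasible _ ?_ ?_ ?_, ?_⟩
  · rw [h0]; show _ = (2499 / 10000 : ℝ); norm_num
  · rw [h1]; show _ = (2499 / 10000 : ℝ); norm_num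
  · rw [h2]; show _ = (2499 / 10000 * (49 / 100) : ℝ); norm_num
  · rw [Ent_const, entropy_branch]

theorem gfun_right : Real.binEntropy (51 / 100) ≤ gfun (2499 / 10000 * (51 / 100)) := by
  have hc : (51 / 100 : ℝ) ∈ Icc (0:ℝ) 1 := by constructor <;> norm_num
  obtain ⟨h0, h1, h2⟩ := rho_const hc
  apply le_gfun
  refine ⟨fun _ => 51 / 100, (good_const hc).isDensity, mem_feasible _ ?_ ?_ ?_, ?_⟩
  · rw [h0]; show _ = (2499 / 10000 : ℝ); norm_num
  · rw [h1]; show _ = (2499 / 10000 : ℝ); norm_num
  · rw [h2]; show _ = (2499 / 10000 * (51 / 100) : ℝ); norm_num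
  · rw [Ent_const]

/-- Strict inequality at the midpoint of the segment. -/
theorem gfun_mid : gfun (2499 / 20000) < Real.binEntropy (51 / 100) := by
  have hx : (2499 / 20000 : ℝ) ∈
      Icc (2499 / 10000 * (49 / 100) : ℝ) (2499 / 10000 * (51 / 100)) := by
    constructor <;> norm_num
  have h : gfun (2499 / 20000) ≤ Real.binEntropy (51 / 100) - (1 / 1000) ^ 2 / 18 := by
    refine csSup_le (ents_nonempty hx) fun e he => ?_
    obtain ⟨f, -, -, -, -, -, h⟩ := ents_le he
    rcases h with ⟨-, h⟩ | ⟨-, h⟩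
    · norm_num at h ⊢
      linarith
    · norm_num at h ⊢
      linarith
  have : (0:ℝ) < (1 / 1000) ^ 2 / 18 := by norm_num
  linarith

/-- Mixtures: from any density in one of the two branches one can move linearly towards the
corresponding end of the segment. -/
theorem mix_step {x ε p t : ℝ} (hp : p = 51 / 100 ∨ p = 49 / 100) {f : ℝ → ℝ} (hf : Good f)
    (h0 : rho [true, false] f = 2499 / 10000) (h2 : rho [true, true, false] f = x)
    (hpf : prim f 1 = p) (ht0 : 0 ≤ t) (ht1 : t < 1) (hε : gfun x - ε < Ent f) :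
    (1 - t) * (gfun x - ε) + t * Real.binEntropy (51 / 100) ≤
      gfun ((1 - t) * x + t * (2499 / 10000 * p)) := by
  have hp0 : 0 < p := by rcases hp with rfl | rfl <;> norm_num
  have hp1 : p < 1 := by rcases hp with rfl | rfl <;> norm_num
  have hpp : p * (1 - p) = 2499 / 10000 := by rcases hp with rfl | rfl <;> norm_num
  have hS : Real.binEntropy p = Real.binEntropy (51 / 100) := by
    rcases hp with rfl | rfl
    · rfl
    · exact entropy_branch
  obtain ⟨g, hg, hpg, g0, g2, gE⟩ := mixture hf hpf hp0 hp1 ht0 ht1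
  have hmem : Ent g ∈ ents ((1 - t) * x + t * (2499 / 10000 * p)) := by
    refine ⟨g, hg.isDensity, mem_feasible _ ?_ ?_ ?_, rfl⟩
    · rw [g0, h0, hpp]; show _ = (2499 / 10000 : ℝ); ring
    · have := rho_10_add_rho_01 hg
      rw [g0, h0, hpg, hpp] at this
      show _ = (2499 / 10000 : ℝ)
      linarith
    · rw [g2, h2]
      show _ = (1 - t) * x + t * (2499 / 10000 * p)
      rw [← hpp]; ring
  refine le_trans ?_ (le_gfun hmem)
  rw [hS] at gE
  have : (1 - t) * (gfun x - ε) ≤ (1 - t) * Ent f :=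
    mul_le_mul_of_nonneg_left hε.le (by linarith)
  linarith

theorem differentiableAt_seg (x : ℝ) : DifferentiableAt ℝ seg x := by
  rw [differentiableAt_pi]
  intro i
  fin_cases i
  · exact differentiableAt_const _
  · exact differentiableAt_const _
  · exact differentiableAt_id

theorem arg_right (E y h : ℝ) (hne : E - y ≠ 0) :
    (1 - h / (E - y)) * y + h / (E - y) * E = y + h := by
  have : (1 - h / (E - y)) * y + h / (E - y) * E = y + h / (E - y) * (E - y) := by ring
  rw [this, div_mul_cancel₀ _ hne]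

theorem arg_left (E y h : ℝ) (hne : y - E ≠ 0) :
    (1 - -h / (y - E)) * y + -h / (y - E) * E = y + h := by
  have : (1 - -h / (y - E)) * y + -h / (y - E) * E = y - -h / (y - E) * (y - E) := by ring
  rw [this, div_mul_cancel₀ _ hne]
  ring

theorem not_differentiable :
    ∃ δ ∈ interior (feasible words), ¬ DifferentiableAt ℝ (entropyFn words) δ := by
  by_contra hcon
  push Not at hcon
  have hdiff : ∀ x ∈ Icc (2499 / 10000 * (49 / 100) : ℝ) (2499 / 10000 * (51 / 100)),
      DifferentiableAt ℝ gfun x := by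
    intro x hx
    exact (hcon (seg x) (seg_mem_interior hx)).comp x (differentiableAt_seg x)
  have hcont : ContinuousOn gfun
      (Icc (2499 / 10000 * (49 / 100) : ℝ) (2499 / 10000 * (51 / 100))) :=
    fun x hx => (hdiff x hx).continuousAt.continuousWithinAt
  obtain ⟨y, hy, hmin⟩ := isCompact_Icc.exists_isMinOn
    (nonempty_Icc.2 (by norm_num)) hcont
  have hmid : gfun y < Real.binEntropy (51 / 100) := by
    refine lt_of_le_of_lt (hmin (a := 2499 / 20000) ?_) gfun_mid
    constructor <;> norm_num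
  have hya : 2499 / 10000 * (49 / 100) < y := by
    refine lt_of_le_of_ne hy.1 ?_
    rintro rfl
    exact absurd gfun_left (not_le.2 hmid)
  have hyb : y < 2499 / 10000 * (51 / 100) := by
    refine lt_of_le_of_ne hy.2 ?_
    rintro rfl
    exact absurd gfun_right (not_le.2 hmid)
  have hlocal : IsLocalMin gfun y := by
    filter_upwards [Icc_mem_nhds hya hyb] with z hz
    exact hmin hz
  have hderiv : HasDerivAt gfun 0 y := by
    have h1 := (hdiff y hy).hasDerivAt
    rwa [hlocal.deriv_eq_zero] at h1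
  -- one of the two branches carries the supremum
  have hex : ∀ ε : ℝ, 0 < ε → ∃ f, Good f ∧ rho [true, false] f = 2499 / 10000 ∧
      rho [true, true, false] f = y ∧ gfun y - ε < Ent f ∧
      (prim f 1 = 51 / 100 ∨ prim f 1 = 49 / 100) := by
    intro ε hε
    obtain ⟨e, he, hlt⟩ := exists_lt_of_lt_csSup (ents_nonempty hy)
      (show gfun y - ε < sSup (ents y) by rw [← gfun_eq]; linarith)
    obtain ⟨f, hf, h0, h1, h2, hE, -⟩ := ents_le he
    exact ⟨f, hf, h0, h2, by rw [hE]; exact hlt, branch hf h0 h1⟩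
  have hbranch : (∀ ε : ℝ, 0 < ε → ∃ f, Good f ∧ rho [true, false] f = 2499 / 10000 ∧
      rho [true, true, false] f = y ∧ gfun y - ε < Ent f ∧ prim f 1 = 51 / 100) ∨
      (∀ ε : ℝ, 0 < ε → ∃ f, Good f ∧ rho [true, false] f = 2499 / 10000 ∧
      rho [true, true, false] f = y ∧ gfun y - ε < Ent f ∧ prim f 1 = 49 / 100) := by
    by_contra hno
    push Not at hno
    obtain ⟨⟨ε1, hε1, hn1⟩, ⟨ε2, hε2, hn2⟩⟩ := hno
    obtain ⟨f, hf, h0, h2, hE, hb⟩ := hex (min ε1 ε2) (lt_min hε1 hε2)
    rcases hb with hb | hb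
    · exact hn1 f hf h0 h2 (by linarith [min_le_left ε1 ε2]) hb
    · exact hn2 f hf h0 h2 (by linarith [min_le_right ε1 ε2]) hb
  rcases hbranch with hB | hB
  · -- right-hand slope is positive
    have hstep : ∀ t : ℝ, 0 ≤ t → t < 1 →
        (1 - t) * gfun y + t * Real.binEntropy (51 / 100) ≤
          gfun ((1 - t) * y + t * (2499 / 10000 * (51 / 100))) := by
      intro t ht0 ht1
      refine le_of_forall_pos_le_add fun ε hε => ?_
      obtain ⟨f, hf, h0, h2, hE, hp⟩ := hB ε hε
      have := mix_step (Or.inl rfl) hf h0 h2 hp ht0 ht1 hE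
      nlinarith
    have hslope := hderiv.tendsto_slope_zero_right
    have hpos : 0 < (Real.binEntropy (51 / 100) - gfun y) / (2499 / 10000 * (51 / 100) - y) :=
      div_pos (by linarith) (by linarith)
    have hle : (Real.binEntropy (51 / 100) - gfun y) / (2499 / 10000 * (51 / 100) - y) ≤ 0 := by
      refine ge_of_tendsto hslope ?_
      have hlen : 0 < 2499 / 10000 * (51 / 100) - y := by linarith
      filter_upwards [Ioo_mem_nhdsGT hlen] with h hh
      have ht1 : h / (2499 / 10000 * (51 / 100) - y) < 1 := (div_lt_one hlen).2 hh.2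
      have := hstep (h / (2499 / 10000 * (51 / 100) - y)) (div_nonneg hh.1.le hlen.le) ht1
      have harg : (1 - h / (2499 / 10000 * (51 / 100) - y)) * y +
          h / (2499 / 10000 * (51 / 100) - y) * (2499 / 10000 * (51 / 100)) = y + h :=
        arg_right _ _ _ hlen.ne'
      rw [harg] at this
      rw [smul_eq_mul, ← div_eq_inv_mul, le_div_iff₀ hh.1]
      have h3 : (Real.binEntropy (51 / 100) - gfun y) / (2499 / 10000 * (51 / 100) - y) * h =
          h / (2499 / 10000 * (51 / 100) - y) * (Real.binEntropy (51 / 100) - gfun y) := by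
        ring
      rw [h3]
      linarith
    linarith
  · have hstep : ∀ t : ℝ, 0 ≤ t → t < 1 →
        (1 - t) * gfun y + t * Real.binEntropy (51 / 100) ≤
          gfun ((1 - t) * y + t * (2499 / 10000 * (49 / 100))) := by
      intro t ht0 ht1
      refine le_of_forall_pos_le_add fun ε hε => ?_
      obtain ⟨f, hf, h0, h2, hE, hp⟩ := hB ε hε
      have := mix_step (Or.inr rfl) hf h0 h2 hp ht0 ht1 hE
      nlinarith
    have hslope := hderiv.tendsto_slope_zero_left
    have hlen : 0 < y - 2499 / 10000 * (49 / 100) := by linarith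
    have hpos : 0 < (Real.binEntropy (51 / 100) - gfun y) / (y - 2499 / 10000 * (49 / 100)) :=
      div_pos (by linarith) hlen
    have hle : 0 ≤ -((Real.binEntropy (51 / 100) - gfun y) / (y - 2499 / 10000 * (49 / 100))) := by
      refine le_of_tendsto hslope ?_
      filter_upwards [Ioo_mem_nhdsLT (neg_neg_of_pos hlen)] with h hh
      have hh2 : 0 < -h := by linarith [hh.2]
      have ht1 : -h / (y - 2499 / 10000 * (49 / 100)) < 1 := (div_lt_one hlen).2 (by linarith [hh.1])
      have := hstep (-h / (y - 2499 / 10000 * (49 / 100))) (div_nonneg hh2.le hlen.le) ht1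
      have harg : (1 - -h / (y - 2499 / 10000 * (49 / 100))) * y +
          -h / (y - 2499 / 10000 * (49 / 100)) * (2499 / 10000 * (49 / 100)) = y + h :=
        arg_left _ _ _ hlen.ne'
      rw [harg] at this
      rw [smul_eq_mul, ← div_eq_inv_mul, div_le_iff_of_neg hh.2]
      have h3 : -((Real.binEntropy (51 / 100) - gfun y) / (y - 2499 / 10000 * (49 / 100))) * h =
          -h / (y - 2499 / 10000 * (49 / 100)) * (Real.binEntropy (51 / 100) - gfun y) := by
        ring
      rw [h3]
      linarith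
    linarith

/-- For the list of distinct words `10, 01, 110`, the entropy function is not differentiable, and
in particular not real-analytic, at some point of the interior of the feasibility set. -/
theorem result : Function.Injective words ∧ ∃ δ ∈ interior (feasible words),
    ¬ DifferentiableAt ℝ (entropyFn words) δ ∧ ¬ AnalyticAt ℝ (entropyFn words) δ := by
  refine ⟨by decide, ?_⟩
  obtain ⟨δ, hδ, h⟩ := not_differentiable
  exact ⟨δ, hδ, h, fun ha => h ha.differentiableAt⟩

end Pool.Agent.Results.MP_8f0a23_co.NotDifferentiable
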